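import Mathlib

namespace Pool.Agent.Results.MP_ef066b_gt.EqualityVersusCH

open Set
open scoped Cardinal

universe u

/-! ## Definitions -/

section Defs
variable (α : Type u) [TopologicalSpace α]

/-- `𝒪`: the open covers of the space `α`: families of open sets with union `α`, where
(by convention) `α` itself is not a member. -/
def OpenCovers : Set (Set (Set α)) :=
  {U | (∀ u ∈ U, IsOpen u) ∧ univ ∉ U ∧ ⋃₀ U = univ}

/-- `Ω`: the open omega-covers of `α`: open families, not containing `α` itself, such that every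
finite subset of `α` is contained in a member. -/
def Omega : Set (Set (Set α)) :=
  {U | (∀ u ∈ U, IsOpen u) ∧ univ ∉ U ∧ ∀ F : Set α, F.Finite → ∃ u ∈ U, F ⊆ u}

variable {α}

/-- `F 0, F 1, F 2, ...` is a partition of the family `U` into (nonempty) finite sets. -/
def IsFinitePartition (U : Set (Set α)) (F : ℕ → Set (Set α)) : Prop :=
  (∀ n, (F n).Finite) ∧ (∀ n, (F n).Nonempty) ∧ (∀ m n, m ≠ n → Disjoint (F m) (F n)) ∧
    ⋃ n, F n = U

/-- A family is multifinite if it can be partitioned into infinitely many finite covers. -/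
def Multifinite (U : Set (Set α)) : Prop :=
  ∃ F, IsFinitePartition U F ∧ ∀ n, ⋃₀ (F n) = univ

variable (α)

/-- `𝒪^{ω-gp}`: the omega-groupable open covers: open covers that are multifinite or have a
partition into finite sets `F n` such that the sets `⋃₀ F n` form an omega-cover. -/
def OmegaGroupable : Set (Set (Set α)) :=
  {U | U ∈ OpenCovers α ∧
    (Multifinite U ∨ ∃ F, IsFinitePartition U F ∧ range (fun n => ⋃₀ (F n)) ∈ Omega α)}

variable {α}

/-- The selection principle `S₁(𝒜, ℬ)`. -/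
def S1 (𝒜 ℬ : Set (Set (Set α))) : Prop :=
  ∀ U : ℕ → Set (Set α), (∀ n, U n ∈ 𝒜) →
    ∃ u : ℕ → Set α, (∀ n, u n ∈ U n) ∧ range u ∈ ℬ

end Defs

/-- `X ⊆ ℝ` has strong measure zero: for all `ε n > 0` it is covered by open intervals `I n`,
where `I n` has length `ε n`. -/
def StrongMeasureZero (X : Set ℝ) : Prop :=
  ∀ ε : ℕ → ℝ, (∀ n, 0 < ε n) → ∃ c : ℕ → ℝ, X ⊆ ⋃ n, Ioo (c n) (c n + ε n)

/-- Borel's conjecture: strong measure zero sets of reals are countable. -/
def BorelConjecture : Prop := ∀ X : Set ℝ, StrongMeasureZero X → X.Countable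

/-! ## General lemmas -/

/-- Dependent recursion along a well-founded relation. -/
theorem wf_choose {I β : Type*} {r : I → I → Prop} (hr : WellFounded r)
    (P : (i : I) → ((j : I) → r j i → β) → β → Prop) (h : ∀ i f, ∃ y, P i f y) :
    ∃ g : I → β, ∀ i, P i (fun j _ => g j) (g i) := by
  refine ⟨hr.fix (fun i f => Classical.choose (h i f)), fun i => ?_⟩
  rw [hr.fix_eq]
  exact Classical.choose_spec (h i _)

/-- Sequential choices of states. -/
theorem step_seq {S : Type*} (Inv : S → Prop) (R : ℕ → S → S → Prop) (s0 : S) (h0 : Inv s0)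
    (h : ∀ m s, Inv s → ∃ s', Inv s' ∧ R m s s') :
    ∃ f : ℕ → S, f 0 = s0 ∧ (∀ m, Inv (f m)) ∧ ∀ m, R m (f m) (f (m + 1)) := by
  choose! g hg using h
  let f : ℕ → S := fun n => Nat.rec s0 (fun m s => g m s) n
  have hf : ∀ m, Inv (f m) := by
    intro m
    induction m with
    | zero => exact h0
    | succ m ih => exact (hg m (f m) ih).1
  exact ⟨f, rfl, hf, fun m => (hg m (f m) (hf m)).2⟩

theorem exists_block {c : ℕ → ℕ} (hc : StrictMono c) (h0 : c 0 = 0) (x : ℕ) :
    ∃ b, c b ≤ x ∧ x < c (b + 1) := by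
  classical
  have hex : ∃ b, x < c (b + 1) := ⟨x, lt_of_lt_of_le (Nat.lt_succ_self x) (hc.id_le (x + 1))⟩
  refine ⟨Nat.find hex, ?_, Nat.find_spec hex⟩
  rcases Nat.eq_zero_or_pos (Nat.find hex) with hz | hp
  · rw [hz, h0]; exact Nat.zero_le x
  · have := Nat.find_min hex (Nat.sub_lt hp one_pos)
    rw [show Nat.find hex - 1 + 1 = Nat.find hex from by omega] at this
    exact not_lt.1 this

section General
variable {α : Type u} [TopologicalSpace α]

theorem omega_isOpenCover {U : Set (Set α)} (hU : U ∈ Omega α) : U ∈ OpenCovers α := by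
  refine ⟨hU.1, hU.2.1, eq_univ_of_forall fun x => ?_⟩
  obtain ⟨u, hu, hx⟩ := hU.2.2 {x} (finite_singleton x)
  exact ⟨u, hu, hx rfl⟩

theorem omega_sdiff_finite {U T : Set (Set α)} (hU : U ∈ Omega α) (hT : T.Finite) :
    U \ T ∈ Omega α := by
  classical
  refine ⟨fun u hu => hU.1 u hu.1, fun h => hU.2.1 h.1, fun F hF => ?_⟩
  have hp : ∀ t : Set α, ∃ P : Set α, P.Finite ∧ (t ≠ univ → ¬ P ⊆ t) := by
    intro t
    by_cases ht : t = univ
    · exact ⟨∅, finite_empty, fun h => absurd ht h⟩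
    · obtain ⟨x, hx⟩ := (ne_univ_iff_exists_notMem t).1 ht
      exact ⟨{x}, finite_singleton x, fun _ h => hx (h rfl)⟩
  choose P hPf hP using hp
  obtain ⟨u, hu, hFu⟩ := hU.2.2 (F ∪ ⋃ t ∈ T, P t) (hF.union (hT.biUnion fun t _ => hPf t))
  refine ⟨u, ⟨hu, fun huT => ?_⟩, subset_union_left.trans hFu⟩
  refine hP u (fun h => hU.2.1 (h ▸ hu)) ?_
  exact (subset_biUnion_of_mem (u := P) huT).trans (subset_union_right.trans hFu)

theorem omega_infinite {U : Set (Set α)} (hU : U ∈ Omega α) : U.Infinite := by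
  intro hfin
  have := omega_sdiff_finite hU hfin
  rw [sdiff_self] at this
  obtain ⟨u, hu, -⟩ := this.2.2 ∅ finite_empty
  exact hu

/-- An omega-cover selected by countably many indices is omega-groupable. -/
theorem S1_Omega_to_OmegaGroupable (h : S1 (Omega α) (Omega α)) :
    S1 (Omega α) (OmegaGroupable α) := by
  intro U hU
  obtain ⟨u, hu, hr⟩ := h U hU
  refine ⟨u, hu, omega_isOpenCover hr, Or.inr ?_⟩
  have : Infinite (range u) := (omega_infinite hr).to_subtype
  have : Countable (range u) := (countable_range u).to_subtype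
  obtain ⟨e⟩ := nonempty_equiv_of_countable (α := ℕ) (β := range u)
  refine ⟨fun n => {(e n : Set α)}, ⟨fun n => finite_singleton _, fun n => singleton_nonempty _,
    fun m n hmn => ?_, ?_⟩, ?_⟩
  · rw [disjoint_singleton]
    intro h
    exact hmn (e.injective (Subtype.ext h))
  · ext s
    simp only [mem_iUnion, mem_singleton_iff]
    constructor
    · rintro ⟨n, rfl⟩; exact (e n).2
    · intro hs
      exact ⟨e.symm ⟨s, hs⟩, by simp⟩
  · have : (range fun n => ⋃₀ ({(e n : Set α)} : Set (Set α))) = range u := by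
      ext s
      simp only [sUnion_singleton, mem_range]
      constructor
      · rintro ⟨n, rfl⟩; exact (e n).2
      · intro hs
        exact ⟨e.symm ⟨s, hs⟩, by simp⟩
    rw [this]; exact hr

/-- Countable spaces satisfy `S₁(Ω, Ω)`. -/
theorem S1_Omega_of_countable [Countable α] : S1 (Omega α) (Omega α) := by
  classical
  intro U hU
  obtain ⟨F, hF⟩ := exists_surjective_nat (Finset α)
  choose u hu hFu using fun n => (hU n).2.2 (F n : Set α) (F n).finite_toSet
  refine ⟨u, hu, ?_, ?_, ?_⟩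
  · rintro _ ⟨n, rfl⟩; exact (hU n).1 _ (hu n)
  · rintro ⟨n, hn⟩; exact (hU n).2.1 (hn ▸ hu n)
  · intro G hG
    obtain ⟨n, hn⟩ := hF hG.toFinset
    refine ⟨u n, ⟨n, rfl⟩, ?_⟩
    have := hFu n
    rwa [hn, hG.coe_toFinset] at this

/-- A sequence of pairwise disjoint finite nonempty blocks of members of an omega-cover, such that
each finite set is captured by infinitely many blocks, witnesses omega-groupability. -/
theorem groupable_of_blocks {U : Set (Set α)} (hcov : U ∈ OpenCovers α) (B : ℕ → Set (Set α))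
    (hB : IsFinitePartition U B)
    (hF : ∀ F : Set α, F.Finite → ∀ N, ∃ b ≥ N, F ⊆ ⋃₀ (B b)) : U ∈ OmegaGroupable α := by
  classical
  obtain ⟨hfin, hne, hdis, hun⟩ := hB
  refine ⟨hcov, ?_⟩
  by_cases hinf : ∀ N, ∃ b > N, ⋃₀ (B b) = univ
  · left
    obtain ⟨φ, hφ, hφu⟩ := Nat.exists_strictMono_subsequence hinf
    let β : ℕ → ℕ := fun j => Nat.casesOn j 0 (fun k => φ k + 1)
    have hβ0 : β 0 = 0 := rfl
    have hβs : ∀ j, β (j + 1) = φ j + 1 := fun j => rfl
    have hβm : StrictMono β := by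
      refine strictMono_nat_of_lt_succ fun n => ?_
      cases n with
      | zero => rw [hβ0, hβs]; exact Nat.succ_pos _
      | succ k => rw [hβs, hβs]; have := hφ (Nat.lt_succ_self k); simp only [Nat.succ_eq_add_one] at this; omega
    have hmem : ∀ j, φ j ∈ Ico (β j) (β (j + 1)) := by
      intro j
      refine ⟨?_, by rw [hβs]; exact Nat.lt_succ_self _⟩
      cases j with
      | zero => rw [hβ0]; exact Nat.zero_le _
      | succ k => rw [hβs]; exact hφ (Nat.lt_succ_self k)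
    refine ⟨fun j => ⋃ b ∈ Ico (β j) (β (j + 1)), B b, ⟨fun j => ?_, fun j => ?_, ?_, ?_⟩, fun j => ?_⟩
    · exact (finite_Ico _ _).biUnion fun b _ => hfin b
    · obtain ⟨x, hx⟩ := hne (φ j)
      exact ⟨x, mem_biUnion (hmem j) hx⟩
    · have key : ∀ i j, i < j → Disjoint (⋃ b ∈ Ico (β i) (β (i + 1)), B b)
          (⋃ b ∈ Ico (β j) (β (j + 1)), B b) := by
        intro i j hij
        rw [disjoint_iUnion₂_left]
        intro b hb
        rw [disjoint_iUnion₂_right]
        intro b' hb'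
        have h1 : β (i + 1) ≤ β j := hβm.monotone hij
        have h2 : b < β (i + 1) := hb.2
        have h3 : β j ≤ b' := hb'.1
        exact hdis b b' (by omega)
      intro i j hij
      rcases lt_or_gt_of_ne hij with h | h
      · exact key i j h
      · exact (key j i h).symm
    · rw [← hun]
      ext s
      simp only [mem_iUnion, exists_prop]
      constructor
      · rintro ⟨j, b, -, hs⟩; exact ⟨b, hs⟩
      · rintro ⟨b, hs⟩
        obtain ⟨j, hj1, hj2⟩ := exists_block hβm hβ0 b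
        exact ⟨j, b, ⟨hj1, hj2⟩, hs⟩
    · refine eq_univ_of_univ_subset ?_
      rw [← hφu j]
      exact sUnion_subset_sUnion (fun s hs => mem_biUnion (hmem j) hs)
  · right
    push Not at hinf
    obtain ⟨N0, hN0⟩ := hinf
    have hN : ∀ b ≥ N0 + 1, ⋃₀ (B b) ≠ univ := fun b hb => hN0 b (by omega)
    set Z : Set (Set α) := ⋃ b ∈ Iio (N0 + 1), B b with hZ
    have hZf : Z.Finite := (finite_Iio _).biUnion fun b _ => hfin b
    have : Fintype Z := hZf.fintype
    let k := Fintype.card Z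
    let e : Fin k ≃ Z := (Fintype.equivFin Z).symm
    let F : ℕ → Set (Set α) := fun n =>
      if h : n < k then {(e ⟨n, h⟩ : Set α)} else B (N0 + 1 + (n - k))
    have hFlt : ∀ n (h : n < k), F n = {(e ⟨n, h⟩ : Set α)} := fun n h => dif_pos h
    have hFge : ∀ n (h : ¬ n < k), F n = B (N0 + 1 + (n - k)) := fun n h => dif_neg h
    have hZdis : ∀ s ∈ Z, ∀ b ≥ N0 + 1, s ∉ B b := by
      intro s hs b hb hsb
      rw [hZ] at hs
      simp only [mem_iUnion, mem_Iio, exists_prop] at hs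
      obtain ⟨b', hb', hs'⟩ := hs
      exact (disjoint_left.1 (hdis b' b (by omega))) hs' hsb
    refine ⟨F, ⟨fun n => ?_, fun n => ?_, fun m n hmn => ?_, ?_⟩, ?_, ?_, ?_⟩
    · by_cases h : n < k
      · rw [hFlt n h]; exact finite_singleton _
      · rw [hFge n h]; exact hfin _
    · by_cases h : n < k
      · rw [hFlt n h]; exact singleton_nonempty _
      · rw [hFge n h]; exact hne _
    · by_cases h : m < k <;> by_cases h' : n < k
      · rw [hFlt m h, hFlt n h', disjoint_singleton]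
        intro he
        have := e.injective (Subtype.ext he)
        rw [Fin.mk.injEq] at this
        exact hmn this
      · rw [hFlt m h, hFge n h', disjoint_singleton_left]
        exact hZdis _ (e _).2 _ (by omega)
      · rw [hFge m h, hFlt n h', disjoint_singleton_right]
        exact hZdis _ (e _).2 _ (by omega)
      · rw [hFge m h, hFge n h']
        exact hdis _ _ (by omega)
    · rw [← hun]
      ext s
      simp only [mem_iUnion]
      constructor
      · rintro ⟨n, hs⟩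
        by_cases h : n < k
        · rw [hFlt n h, mem_singleton_iff] at hs
          have := (e ⟨n, h⟩).2
          rw [← hs, hZ] at this
          simp only [mem_iUnion, mem_Iio, exists_prop] at this
          obtain ⟨b, -, hb⟩ := this
          exact ⟨b, hb⟩
        · rw [hFge n h] at hs
          exact ⟨_, hs⟩
      · rintro ⟨b, hs⟩
        by_cases hb : b < N0 + 1
        · have hsZ : s ∈ Z := by rw [hZ]; exact mem_biUnion hb hs
          refine ⟨(e.symm ⟨s, hsZ⟩ : Fin k), ?_⟩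
          rw [hFlt _ (e.symm ⟨s, hsZ⟩).2]
          simp
        · refine ⟨b - (N0 + 1) + k, ?_⟩
          rw [hFge _ (by omega)]
          have : N0 + 1 + (b - (N0 + 1) + k - k) = b := by omega
          rw [this]; exact hs
    · rintro _ ⟨n, rfl⟩
      refine isOpen_sUnion fun s hs => hcov.1 s ?_
      rw [← hun]
      by_cases h : n < k
      · rw [hFlt n h, mem_singleton_iff] at hs
        have := (e ⟨n, h⟩).2
        rw [← hs, hZ] at this
        simp only [mem_iUnion, mem_Iio, exists_prop] at this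
        obtain ⟨b, -, hb⟩ := this
        exact mem_iUnion.2 ⟨b, hb⟩
      · rw [hFge n h] at hs
        exact mem_iUnion.2 ⟨_, hs⟩
    · rintro ⟨n, hn⟩
      by_cases h : n < k
      · simp only [hFlt n h, sUnion_singleton] at hn
        have := (e ⟨n, h⟩).2
        rw [hn, hZ] at this
        simp only [mem_iUnion, mem_Iio, exists_prop] at this
        obtain ⟨b, -, hb⟩ := this
        apply hcov.2.1
        rw [← hun]
        exact mem_iUnion.2 ⟨b, hb⟩
      · simp only [hFge n h] at hn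
        exact hN _ (by omega) hn
    · intro G hG
      obtain ⟨b, hb, hGb⟩ := hF G hG (N0 + 1)
      refine ⟨_, ⟨b - (N0 + 1) + k, rfl⟩, ?_⟩
      have h1 : F (b - (N0 + 1) + k) = B b := by
        rw [hFge _ (by omega)]
        congr 1; omega
      simp only [h1]; exact hGb

/-- Reduction used for the example: select members `H n` from omega-covers, in consecutive groups,
such that finite sets off a countable set are captured by infinitely many groups. -/
theorem S1_OmegaGroupable_of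
    (h : ∀ U : ℕ → Set (Set α), (∀ n, U n ∈ Omega α) →
      ∃ (H : ℕ → Set α) (a : ℕ → ℕ) (E : Set α),
      (∀ n, H n ∈ U n) ∧ Function.Injective H ∧ StrictMono a ∧ E.Countable ∧
      ∀ G : Set α, G.Finite → Disjoint G E → ∀ N, ∃ m ≥ N, ∀ x ∈ G,
        ∃ n ∈ Ico (a m) (a (m + 1)), x ∈ H n) :
    S1 (Omega α) (OmegaGroupable α) := by
  classical
  intro U hU
  obtain ⟨H, a, E, hH, hinj, ha, hE, hG⟩ := h (fun n => U (2 * n)) (fun n => hU _)
  obtain ⟨ι, hι⟩ := Set.countable_iff_exists_injOn.1 hE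
  let Ek : ℕ → Set α := fun k => {x | x ∈ E ∧ ι x ≤ k}
  have hEk : ∀ k, (Ek k).Finite := by
    intro k
    refine Finite.of_finite_image ((finite_Iic k).subset ?_) (hι.mono fun x hx => hx.1)
    rintro _ ⟨x, hx, rfl⟩
    exact hx.2
  have hEmono : ∀ {j k}, j ≤ k → Ek j ⊆ Ek k := fun hjk x hx => ⟨hx.1, hx.2.trans hjk⟩
  obtain ⟨g, hg⟩ := wf_choose (I := ℕ) (β := Set α × ℕ) (r := (· < ·)) Nat.lt_wfRel.wf
    (fun b f y => y.1 ∈ U (2 * b + 1) ∧ Ek b ⊆ y.1 ∧ (∀ j (hj : j < b), y.1 ≠ (f j hj).1) ∧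
      (∀ j (hj : j < b), (f j hj).2 < y.2) ∧ 0 < y.2 ∧
      (∀ j (hj : j < b), ∀ n < a (f j hj).2, y.1 ≠ H n) ∧ ∀ n, y.1 = H n → n < a y.2) (by
    intro b f
    let f' : ℕ → Set α × ℕ := fun j => if hj : j < b then f j hj else (∅, 0)
    have hf' : ∀ j (hj : j < b), f' j = f j hj := fun j hj => dif_pos hj
    let L : ℕ := (∑ j ∈ Finset.range b, (f' j).2) + 1
    have hL : ∀ j (hj : j < b), (f j hj).2 < L := by
      intro j hj
      have : (f' j).2 ≤ ∑ j ∈ Finset.range b, (f' j).2 :=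
        Finset.single_le_sum (f := fun j => (f' j).2) (fun _ _ => Nat.zero_le _)
          (Finset.mem_range.2 hj)
      rw [hf' j hj] at this
      exact Nat.lt_succ_of_le this
    let T : Set (Set α) := (fun j => (f' j).1) '' Iio b ∪ H '' Iio (a L)
    have hT : T.Finite := ((finite_Iio b).image _).union ((finite_Iio _).image _)
    obtain ⟨w, ⟨hw, hwT⟩, hEw⟩ := (omega_sdiff_finite (hU (2 * b + 1)) hT).2.2 (Ek b) (hEk b)
    obtain ⟨M, hM1, hM2⟩ : ∃ M, L ≤ M ∧ ∀ n, w = H n → n < a M := by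
      by_cases hex : ∃ n, w = H n
      · obtain ⟨n, hn⟩ := hex
        refine ⟨max L (n + 1), le_max_left _ _, fun n' hn' => ?_⟩
        have : n' = n := hinj (hn'.symm.trans hn)
        subst this
        calc n' < n' + 1 := Nat.lt_succ_self _
          _ ≤ a (n' + 1) := ha.id_le _
          _ ≤ _ := ha.monotone (le_max_right _ _)
      · exact ⟨L, le_rfl, fun n hn => absurd ⟨n, hn⟩ hex⟩
    refine ⟨(w, M), hw, hEw, ?_, ?_, ?_, ?_, hM2⟩
    · intro j hj hwj
      exact hwT (Or.inl ⟨j, hj, by simp only [hf' j hj]; exact hwj.symm⟩)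
    · intro j hj
      exact (hL j hj).trans_le hM1
    · exact lt_of_lt_of_le (Nat.succ_pos _) hM1
    · intro j hj n hn hwn
      exact hwT (Or.inr ⟨n, lt_trans hn (ha (hL j hj)), hwn.symm⟩))
  set w : ℕ → Set α := fun b => (g b).1 with hw
  set μ : ℕ → ℕ := fun b => (g b).2 with hμ
  have hwU : ∀ b, w b ∈ U (2 * b + 1) := fun b => (hg b).1
  have hwE : ∀ b, Ek b ⊆ w b := fun b => (hg b).2.1
  have hww : ∀ i j, i ≠ j → w i ≠ w j := by
    intro i j hij
    rcases lt_or_gt_of_ne hij with hlt | hlt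
    · exact fun he => (hg j).2.2.1 i hlt he.symm
    · exact fun he => (hg i).2.2.1 j hlt he
  have hμm : StrictMono μ := fun i j hij => (hg j).2.2.2.1 i hij
  have hμ0 : ∀ b, 0 < μ b := fun b => (hg b).2.2.2.2.1
  have hwH : ∀ b j, j < b → ∀ n < a (μ j), w b ≠ H n := fun b j hj => (hg b).2.2.2.2.2.1 j hj
  have hwH' : ∀ b n, w b = H n → n < a (μ b) := fun b => (hg b).2.2.2.2.2.2
  let c : ℕ → ℕ := fun b => Nat.casesOn b 0 (fun k => a (μ k))
  have hc0 : c 0 = 0 := rfl
  have hcs : ∀ b, c (b + 1) = a (μ b) := fun b => rfl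
  have hcm : StrictMono c := by
    refine strictMono_nat_of_lt_succ fun n => ?_
    cases n with
    | zero => rw [hc0, hcs]; exact lt_of_lt_of_le (hμ0 0) (ha.id_le _)
    | succ k => rw [hcs, hcs]; exact ha (hμm (Nat.lt_succ_self k))
  let B : ℕ → Set (Set α) := fun b => insert (w b) (H '' Ico (c b) (c (b + 1)))
  let u : ℕ → Set α := fun k => if k % 2 = 0 then H (k / 2) else w (k / 2)
  have hu0 : ∀ n, u (2 * n) = H n := by
    intro n
    have h1 : 2 * n % 2 = 0 := by omega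
    have h2 : 2 * n / 2 = n := by omega
    simp only [u, h1, if_true, h2]
  have hu1 : ∀ n, u (2 * n + 1) = w n := by
    intro n
    have h1 : (2 * n + 1) % 2 = 1 := by omega
    have h2 : (2 * n + 1) / 2 = n := by omega
    simp only [u, h1, h2, one_ne_zero, if_false]
  have huU : ∀ k, u k ∈ U k := by
    intro k
    rcases Nat.even_or_odd' k with ⟨n, rfl | rfl⟩
    · rw [hu0]; exact hH n
    · rw [hu1]; exact hwU n
  have hcapt : ∀ F : Set α, F.Finite → ∀ N, ∃ b ≥ N, F ⊆ ⋃₀ (B b) := by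
    intro F hF N
    obtain ⟨k0, hk0⟩ : ∃ k0, F ∩ E ⊆ Ek k0 := by
      obtain ⟨k0, hk0⟩ := ((hF.subset inter_subset_left).image ι : (ι '' (F ∩ E)).Finite).bddAbove
      exact ⟨k0, fun x hx => ⟨hx.2, hk0 ⟨x, hx, rfl⟩⟩⟩
    obtain ⟨m, hm, hGm⟩ := hG (F \ E) (hF.subset sdiff_subset) disjoint_sdiff_left (c (max N k0))
    obtain ⟨b, hb1, hb2⟩ := exists_block hcm hc0 (a m)
    have hb : max N k0 ≤ b := by
      by_contra hlt
      have h1 : b + 1 ≤ max N k0 := by omega
      have h2 : c (b + 1) ≤ c (max N k0) := hcm.monotone h1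
      have h3 : m ≤ a m := ha.id_le m
      omega
    have hm1 : a (m + 1) ≤ c (b + 1) := by
      rw [hcs] at hb2 ⊢
      exact ha.monotone (ha.lt_iff_lt.1 hb2)
    refine ⟨b, le_trans (le_max_left _ _) hb, fun x hx => ?_⟩
    by_cases hxE : x ∈ E
    · exact ⟨w b, mem_insert _ _, hwE b (hEmono (le_trans (le_max_right _ _) hb) (hk0 ⟨hx, hxE⟩))⟩
    · obtain ⟨n, hn, hxn⟩ := hGm x ⟨hx, hxE⟩
      exact ⟨H n, mem_insert_of_mem _ ⟨n, ⟨hb1.trans hn.1, hn.2.trans_le hm1⟩, rfl⟩, hxn⟩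
  have hpart : IsFinitePartition (range u) B := by
    refine ⟨fun b => ((finite_Ico _ _).image _).insert _, fun b => insert_nonempty _ _, ?_, ?_⟩
    · have key : ∀ i j, i < j → Disjoint (B i) (B j) := by
        intro i j hij
        rw [disjoint_left]
        have hci : c (i + 1) ≤ c j := hcm.monotone hij
        rintro s (rfl | ⟨n, hn, rfl⟩) (hs | ⟨n', hn', hs⟩)
        · exact hww i j hij.ne hs
        · have := hwH' i n' hs.symm
          rw [← hcs] at this
          have := hn'.1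
          omega
        · obtain ⟨j', rfl⟩ : ∃ j', j = j' + 1 := ⟨j - 1, by omega⟩
          exact hwH (j' + 1) j' (Nat.lt_succ_self _) n (lt_of_lt_of_le hn.2 hci) hs.symm
        · have := hinj hs
          have h1 := hn.2
          have h2 := hn'.1
          omega
      intro i j hij
      rcases lt_or_gt_of_ne hij with h | h
      · exact key i j h
      · exact (key j i h).symm
    · ext s
      simp only [mem_iUnion, mem_range, B, mem_insert_iff, mem_image]
      constructor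
      · rintro ⟨b, rfl | ⟨n, -, rfl⟩⟩
        · exact ⟨2 * b + 1, hu1 b⟩
        · exact ⟨2 * n, hu0 n⟩
      · rintro ⟨k, rfl⟩
        rcases Nat.even_or_odd' k with ⟨n, rfl | rfl⟩
        · obtain ⟨b, hb⟩ := exists_block hcm hc0 n
          exact ⟨b, Or.inr ⟨n, hb, (hu0 n).symm⟩⟩
        · exact ⟨n, Or.inl (hu1 n)⟩
  refine ⟨u, huU, groupable_of_blocks ⟨?_, ?_, ?_⟩ B hpart hcapt⟩
  · rintro _ ⟨k, rfl⟩; exact (hU k).1 _ (huU k)
  · rintro ⟨k, hk⟩; exact (hU k).2.1 (hk ▸ huU k)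
  · refine eq_univ_of_forall fun x => ?_
    obtain ⟨b, -, hb⟩ := hcapt {x} (finite_singleton x) 0
    obtain ⟨s, hs, hxs⟩ := hb rfl
    refine ⟨s, ?_, hxs⟩
    rw [← hpart.2.2.2]
    exact mem_iUnion.2 ⟨b, hs⟩

end General

/-! ## The set of reals constructed under CH -/

/-- A sequence of open sets of reals is thick if for every nonempty open `I`, for all large `m` and
all `z ∈ [0,1]` there is `x ∈ I` with `x, x + z ∈ V m`. -/
def Thick (V : ℕ → Set ℝ) : Prop :=
  (∀ m, IsOpen (V m)) ∧ ∀ I : Set ℝ, IsOpen I → I.Nonempty →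
    ∃ m0, ∀ m ≥ m0, ∀ z ∈ Icc (0 : ℝ) 1, ∃ x ∈ I, x ∈ V m ∧ x + z ∈ V m

/-- Under CH there is a set of reals `X ⊇ ℚ` with `[0,1] ⊆ X - X` such that for each thick sequence
`V` finite subsets of `X` off a countable set are captured by infinitely many `V m`. -/
theorem exists_generic (hCH : (𝔠 : Cardinal.{0}) = ℵ₁) :
    ∃ X : Set ℝ, (∀ q : ℚ, (q : ℝ) ∈ X) ∧ (∀ z ∈ Icc (0 : ℝ) 1, ∃ x ∈ X, x + z ∈ X) ∧
      ∀ V, Thick V → ∃ E : Set ℝ, E.Countable ∧
        ∀ G : Set ℝ, G ⊆ X → G.Finite → Disjoint G E → ∀ N, ∃ m ≥ N, G ⊆ V m := by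
  classical
  obtain ⟨b, hbc, -, hb⟩ := TopologicalSpace.exists_countable_basis ℝ
  have hbne : b.Nonempty := by
    obtain ⟨u, hu, -⟩ := hb.exists_subset_of_mem_open (mem_univ (0 : ℝ)) isOpen_univ
    exact ⟨u, hu⟩
  obtain ⟨J, hJ⟩ := hbc.exists_eq_range hbne
  have hJo : ∀ k, IsOpen (J k) := fun k => hb.isOpen (hJ ▸ mem_range_self k)
  let dec : (ℕ → Set ℕ) → ℕ → Set ℝ := fun c m => ⋃ k ∈ c m, J k
  have hdec : ∀ V : ℕ → Set ℝ, (∀ m, IsOpen (V m)) → dec (fun m => {k | J k ⊆ V m}) = V := by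
    intro V hV
    funext m
    apply Subset.antisymm
    · exact iUnion₂_subset fun k hk => hk
    · intro x hx
      obtain ⟨u, hu, hxu, huV⟩ := hb.exists_subset_of_mem_open hx (hV m)
      rw [hJ] at hu
      obtain ⟨k, rfl⟩ := hu
      exact mem_biUnion (show J k ⊆ V m from huV) hxu
  have hcard : #((ℕ → Set ℕ) × ℝ) = 𝔠 := by
    rw [Cardinal.mk_prod, Cardinal.lift_id, Cardinal.lift_id, Cardinal.mk_real]
    have : #(ℕ → Set ℕ) = 𝔠 := by
      rw [← Cardinal.power_def, Cardinal.mk_set, Cardinal.mk_nat, Cardinal.two_power_aleph0,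
        Cardinal.continuum_power_aleph0]
    rw [this, Cardinal.continuum_mul_self]
  have hI : #((Cardinal.continuum.{0}).ord.ToType) = #((ℕ → Set ℕ) × ℝ) := by
    rw [Cardinal.mk_ord_toType, hcard]
  obtain ⟨e⟩ := Cardinal.eq.1 hI
  have hcount : ∀ i : (Cardinal.continuum.{0}).ord.ToType, (Iio i).Countable := by
    intro i
    have h1 : #(Iio i) < 𝔠 := by
      have := Cardinal.mk_Iio_lt i (by simp)
      rwa [Cardinal.mk_ord_toType] at this
    have h2 := h1.trans_eq hCH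
    rw [Cardinal.lt_aleph_one_iff, Cardinal.le_aleph0_iff_set_countable] at h2
    exact h2
  let z : (Cardinal.continuum.{0}).ord.ToType → ℝ := fun k => max 0 (min 1 (e k).2)
  have hz : ∀ k, z k ∈ Icc (0 : ℝ) 1 := fun k =>
    ⟨le_max_left _ _, max_le zero_le_one (min_le_left _ _)⟩
  let W : (Cardinal.continuum.{0}).ord.ToType → ℕ → Set ℝ := fun k => dec (e k).1
  obtain ⟨g, hg⟩ := wf_choose (I := (Cardinal.continuum.{0}).ord.ToType) (β := ℝ) (r := (· < ·))
    wellFounded_lt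
    (fun i f x => ∀ j, j < i → ∀ K : Finset {k // k < i}, Thick (W j) →
      (∀ N, ∃ m ≥ N, ∀ k ∈ K, f k.1 k.2 ∈ W j m ∧ f k.1 k.2 + z k.1 ∈ W j m) →
      ∀ N, ∃ m ≥ N, (∀ k ∈ K, f k.1 k.2 ∈ W j m ∧ f k.1 k.2 + z k.1 ∈ W j m) ∧
        x ∈ W j m ∧ x + z i ∈ W j m) (by
    intro i f
    have hci : Countable {k // k < i} := (hcount i).to_subtype
    let O : ({k // k < i} × Finset {k // k < i} × ℕ) → Set ℝ := fun γ =>
      {x | Thick (W γ.1.1) →
        (∀ N, ∃ m ≥ N, ∀ k ∈ γ.2.1, f k.1 k.2 ∈ W γ.1.1 m ∧ f k.1 k.2 + z k.1 ∈ W γ.1.1 m) →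
        ∃ m ≥ γ.2.2, (∀ k ∈ γ.2.1, f k.1 k.2 ∈ W γ.1.1 m ∧ f k.1 k.2 + z k.1 ∈ W γ.1.1 m) ∧
        x ∈ W γ.1.1 m ∧ x + z i ∈ W γ.1.1 m}
    have hO : ∀ γ, IsOpen (O γ) ∧ Dense (O γ) := by
      rintro ⟨⟨j, hj⟩, K, N⟩
      by_cases h1 : Thick (W j)
      · by_cases h2 : ∀ N, ∃ m ≥ N, ∀ k ∈ K, f k.1 k.2 ∈ W j m ∧ f k.1 k.2 + z k.1 ∈ W j m
        · have hOeq : O (⟨j, hj⟩, K, N) = ⋃ m ∈ {m : ℕ | N ≤ m ∧
              ∀ k ∈ K, f k.1 k.2 ∈ W j m ∧ f k.1 k.2 + z k.1 ∈ W j m},
              (W j m ∩ {x | x + z i ∈ W j m}) := by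
            ext x
            simp only [O, mem_ofPred_eq, mem_iUnion, mem_inter_iff, exists_prop]
            constructor
            · intro hx
              obtain ⟨m, hm, hk, hxm⟩ := hx h1 h2
              exact ⟨m, ⟨hm, hk⟩, hxm⟩
            · rintro ⟨m, ⟨hm, hk⟩, hxm⟩ - -
              exact ⟨m, hm, hk, hxm⟩
          rw [hOeq]
          refine ⟨isOpen_biUnion fun m _ => (h1.1 m).inter
            ((h1.1 m).preimage (continuous_id.add continuous_const)), ?_⟩
          rw [dense_iff_inter_open]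
          intro I hIo hIn
          obtain ⟨m0, hm0⟩ := h1.2 I hIo hIn
          obtain ⟨m, hm, hk⟩ := h2 (max N m0)
          obtain ⟨x, hxI, hx1, hx2⟩ := hm0 m (le_trans (le_max_right _ _) hm) (z i) (hz i)
          exact ⟨x, hxI, mem_biUnion (show N ≤ m ∧ _ from ⟨le_trans (le_max_left _ _) hm, hk⟩)
            ⟨hx1, hx2⟩⟩
        · have : O (⟨j, hj⟩, K, N) = univ := eq_univ_of_forall fun x _ h => absurd h h2
          rw [this]; exact ⟨isOpen_univ, dense_univ⟩
      · have : O (⟨j, hj⟩, K, N) = univ := eq_univ_of_forall fun x h _ => absurd h h1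
        rw [this]; exact ⟨isOpen_univ, dense_univ⟩
    obtain ⟨x, hx⟩ := (dense_iInter_of_isOpen (fun γ => (hO γ).1) (fun γ => (hO γ).2)).nonempty
    refine ⟨x, fun j hj K h1 h2 N => ?_⟩
    exact (mem_iInter.1 hx (⟨j, hj⟩, K, N)) h1 h2)
  refine ⟨range ((↑) : ℚ → ℝ) ∪ {x | ∃ i, x = g i ∨ x = g i + z i}, fun q => Or.inl ⟨q, rfl⟩,
    fun y hy => ?_, fun V hV => ?_⟩
  · let i := e.symm (fun _ => ∅, y)
    have hi : z i = y := by
      simp only [z, i, Equiv.apply_symm_apply]
      rw [min_eq_right hy.2, max_eq_right hy.1]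
    exact ⟨g i, Or.inr ⟨i, Or.inl rfl⟩, Or.inr ⟨i, Or.inr (by rw [hi])⟩⟩
  · let j0 := e.symm (fun m => {k | J k ⊆ V m}, 0)
    have hj0 : W j0 = V := by
      simp only [W, j0, Equiv.apply_symm_apply]
      exact hdec V hV.1
    have hc0 : (Iic j0).Countable := by
      rw [← Iio_insert]; exact (hcount j0).insert _
    refine ⟨range ((↑) : ℚ → ℝ) ∪ (g '' Iic j0 ∪ (fun i => g i + z i) '' Iic j0),
      (countable_range _).union ((hc0.image _).union (hc0.image _)), fun G hGX hGf hGE => ?_⟩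
    have key : ∀ K : Finset (Cardinal.continuum.{0}).ord.ToType, (∀ k ∈ K, j0 < k) →
        ∀ N, ∃ m ≥ N, ∀ k ∈ K, g k ∈ V m ∧ g k + z k ∈ V m := by
      intro K
      induction K using Finset.induction_on_max with
      | empty => intro _ N; exact ⟨N, le_rfl, by simp⟩
      | insert a s hs ih =>
        intro hK N
        have ih' := ih fun k hk => hK k (Finset.mem_insert_of_mem hk)
        have h := hg a j0 (hK a (Finset.mem_insert_self _ _)) (s.subtype (· < a)) (hj0 ▸ hV) (by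
          intro N
          obtain ⟨m, hm, hk⟩ := ih' N
          refine ⟨m, hm, fun k hk' => ?_⟩
          rw [hj0]
          exact hk k.1 (Finset.mem_subtype.1 hk')) N
        obtain ⟨m, hm, hk, ha⟩ := h
        refine ⟨m, hm, fun k hk' => ?_⟩
        rcases Finset.mem_insert.1 hk' with rfl | hks
        · rw [hj0] at ha; exact ha
        · have := hk ⟨k, hs k hks⟩ (Finset.mem_subtype.2 hks)
          rw [hj0] at this; exact this
    have hidx : ∀ x ∈ G, ∃ i, j0 < i ∧ (x = g i ∨ x = g i + z i) := by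
      intro x hx
      have hxE := disjoint_left.1 hGE hx
      rcases hGX hx with hq | ⟨i, hi⟩
      · exact absurd (Or.inl hq) hxE
      · refine ⟨i, ?_, hi⟩
        by_contra hlt
        have hle : i ∈ Iic j0 := not_lt.1 hlt
        rcases hi with rfl | rfl
        · exact hxE (Or.inr (Or.inl ⟨i, hle, rfl⟩))
        · exact hxE (Or.inr (Or.inr ⟨i, hle, rfl⟩))
    have : Nonempty (Cardinal.continuum.{0}).ord.ToType := ⟨j0⟩
    choose! idx hidx1 hidx2 using hidx
    intro N
    obtain ⟨m, hm, hk⟩ := key (hGf.toFinset.image idx) (by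
      intro k hk
      obtain ⟨x, hx, rfl⟩ := Finset.mem_image.1 hk
      exact hidx1 x (hGf.mem_toFinset.1 hx)) N
    refine ⟨m, hm, fun x hx => ?_⟩
    have h := hk (idx x) (Finset.mem_image.2 ⟨x, hGf.mem_toFinset.2 hx, rfl⟩)
    rcases hidx2 x hx with h' | h'
    · rw [h']; exact h.1
    · rw [h']; exact h.2

/-! ## Selecting from omega-covers -/

section Selection
variable {X : Set ℝ}

/-- The largest open set of reals whose trace on `X` is contained in `h`. -/
def ext (h : Set X) : Set ℝ := ⋃₀ {O | IsOpen O ∧ ∀ y : X, (y : ℝ) ∈ O → y ∈ h}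

theorem isOpen_ext (h : Set X) : IsOpen (ext h) := isOpen_sUnion fun _ hO => hO.1

theorem mem_of_mem_ext {h : Set X} {y : X} (hy : (y : ℝ) ∈ ext h) : y ∈ h := by
  obtain ⟨O, hO, hyO⟩ := hy
  exact hO.2 y hyO

theorem mem_ext {h : Set X} (hh : IsOpen h) {y : X} (hy : y ∈ h) : (y : ℝ) ∈ ext h := by
  obtain ⟨O, hO, rfl⟩ := isOpen_induced_iff.1 hh
  exact ⟨O, ⟨hO, fun y hy => hy⟩, hy⟩

theorem pick_list {U : ℕ → Set (Set X)} (hU : ∀ n, U n ∈ Omega X) (r : ℕ) (y : ℕ → X) (p : ℕ)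
    {T : Set (Set X)} (hT : T.Finite) :
    ∃ h : ℕ → Set X, (∀ i < r, h (p + i) ∈ U (p + i) \ T ∧ y i ∈ h (p + i)) ∧
      InjOn h (Ico p (p + r)) := by
  classical
  induction r with
  | zero => exact ⟨fun _ => ∅, fun i hi => absurd hi (Nat.not_lt_zero i), by simp⟩
  | succ r ih =>
    obtain ⟨h, h1, h2⟩ := ih
    have hfin : (T ∪ h '' Ico p (p + r)).Finite := hT.union ((finite_Ico _ _).image _)
    obtain ⟨u, ⟨hu, huT⟩, hy⟩ := (omega_sdiff_finite (hU (p + r)) hfin).2.2 {y r}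
      (finite_singleton _)
    refine ⟨Function.update h (p + r) u, fun i hi => ?_, ?_⟩
    · rcases Nat.lt_succ_iff_lt_or_eq.1 hi with hlt | rfl
      · rw [Function.update_of_ne (by omega)]
        exact h1 i hlt
      · rw [Function.update_self]
        exact ⟨⟨hu, fun h => huT (Or.inl h)⟩, hy rfl⟩
    · intro a ha b hb hab
      by_cases h3 : a = p + r
      · by_cases h4 : b = p + r
        · rw [h3, h4]
        · rw [h3, Function.update_self, Function.update_of_ne h4] at hab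
          exfalso
          exact huT (Or.inr ⟨b, ⟨hb.1, by have := hb.2; omega⟩, hab.symm⟩)
      · by_cases h4 : b = p + r
        · rw [h4, Function.update_self, Function.update_of_ne h3] at hab
          exfalso
          exact huT (Or.inr ⟨a, ⟨ha.1, by have := ha.2; omega⟩, hab⟩)
        · rw [Function.update_of_ne h3, Function.update_of_ne h4] at hab
          exact h2 ⟨ha.1, by have := ha.2; omega⟩ ⟨hb.1, by have := hb.2; omega⟩ hab

theorem pick_group (hq : ∀ q : ℚ, (q : ℝ) ∈ X) {U : ℕ → Set (Set X)} (hU : ∀ n, U n ∈ Omega X)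
    {J : ℕ → Set ℝ} (hJo : ∀ s, IsOpen (J s)) (hJn : ∀ s, (J s).Nonempty) (m p : ℕ)
    {T : Set (Set X)} (hT : T.Finite) :
    ∃ q > p, ∃ h : ℕ → Set X, (∀ n ∈ Ico p q, h n ∈ U n \ T) ∧ InjOn h (Ico p q) ∧
      ∀ s < m, ∀ z ∈ Icc (0 : ℝ) 1, ∃ x ∈ J s, (∃ n ∈ Ico p q, x ∈ ext (h n)) ∧
        ∃ n ∈ Ico p q, x + z ∈ ext (h n) := by
  classical
  have hr : ∀ s, ∃ r : ℚ, (r : ℝ) ∈ J s := fun s =>
    (Rat.denseRange_cast (𝕜 := ℝ)).exists_mem_open (hJo s) (hJn s)
  choose r hr using hr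
  obtain ⟨h1, h1a, h1b⟩ := pick_list hU m (fun i => ⟨(r i : ℝ), hq _⟩) p hT
  have hδ : ∀ s, ∃ K : ℕ, s < m → 0 < K ∧
      Metric.closedBall (r s : ℝ) (1 / K) ⊆ J s ∩ ext (h1 (p + s)) := by
    intro s
    by_cases hs : s < m
    · have hmem : (r s : ℝ) ∈ J s ∩ ext (h1 (p + s)) :=
        ⟨hr s, mem_ext (y := ⟨(r s : ℝ), hq _⟩) ((hU _).1 _ (h1a s hs).1.1) (h1a s hs).2⟩
      obtain ⟨δ, hδ, hb⟩ := Metric.isOpen_iff.1 ((hJo s).inter (isOpen_ext _)) _ hmem
      obtain ⟨K, hK⟩ := exists_nat_one_div_lt hδ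
      refine ⟨K + 1, fun _ => ⟨Nat.succ_pos _, ?_⟩⟩
      refine (Metric.closedBall_subset_ball ?_).trans hb
      push_cast
      exact hK
    · exact ⟨0, fun h => absurd h hs⟩
  choose Ks hKs using hδ
  let K := ∑ s ∈ Finset.range m, Ks s + 1
  have hK0 : (0 : ℝ) < K := by positivity
  have hKle : ∀ s < m, Metric.closedBall (r s : ℝ) (1 / K) ⊆ J s ∩ ext (h1 (p + s)) := by
    intro s hs
    refine (Metric.closedBall_subset_closedBall ?_).trans (hKs s hs).2
    have h2 : Ks s ≤ ∑ s ∈ Finset.range m, Ks s :=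
      Finset.single_le_sum (f := Ks) (fun _ _ => Nat.zero_le _) (Finset.mem_range.2 hs)
    have h3 : (Ks s : ℝ) ≤ K := by
      have : Ks s ≤ K := by omega
      exact_mod_cast this
    exact one_div_le_one_div_of_le (by exact_mod_cast (hKs s hs).1) h3
  have hT' : (T ∪ h1 '' Ico p (p + m)).Finite := hT.union ((finite_Ico _ _).image _)
  obtain ⟨h2, h2a, h2b⟩ := pick_list hU (m * (K + 1) + 1)
    (fun i => ⟨((r (i / (K + 1)) + (i % (K + 1) : ℕ) / (K : ℚ) : ℚ) : ℝ), hq _⟩) (p + m) hT'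
  have hq' : p + m + (m * (K + 1) + 1) > p := by omega
  refine ⟨p + m + (m * (K + 1) + 1), hq', fun n => if n < p + m then h1 n else h2 n, ?_, ?_, ?_⟩
  · intro n hn
    by_cases hlt : n < p + m
    · simp only [hlt, if_true]
      have := (h1a (n - p) (by have := hn.1; omega)).1
      rwa [show p + (n - p) = n from by have := hn.1; omega] at this
    · simp only [hlt, if_false]
      have := (h2a (n - (p + m)) (by have := hn.2; omega)).1
      rw [show p + m + (n - (p + m)) = n from by omega] at this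
      exact ⟨this.1, fun h => this.2 (Or.inl h)⟩
  · intro a ha b hb hab
    have hb' := hb.2
    have ha' := ha.2
    by_cases h3 : a < p + m <;> by_cases h4 : b < p + m
    · simp only [h3, h4, if_true] at hab
      exact h1b ⟨ha.1, h3⟩ ⟨hb.1, h4⟩ hab
    · simp only [h3, h4, if_true, if_false] at hab
      exfalso
      have := (h2a (b - (p + m)) (by omega)).1.2
      rw [show p + m + (b - (p + m)) = b from by omega] at this
      exact this (Or.inr ⟨a, ⟨ha.1, h3⟩, hab⟩)
    · simp only [h3, h4, if_true, if_false] at hab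
      exfalso
      have := (h2a (a - (p + m)) (by omega)).1.2
      rw [show p + m + (a - (p + m)) = a from by omega] at this
      exact this (Or.inr ⟨b, ⟨hb.1, h4⟩, hab.symm⟩)
    · simp only [h3, h4, if_false] at hab
      exact h2b ⟨not_lt.1 h3, ha'⟩ ⟨not_lt.1 h4, hb'⟩ hab
  · intro s hs z hz
    set j := ⌊z * K⌋₊ with hj
    have hj1 : (j : ℝ) ≤ z * K := Nat.floor_le (mul_nonneg hz.1 hK0.le)
    have hj2 : z * K < j + 1 := Nat.lt_floor_add_one _
    have hjK : j ≤ K := by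
      have : (j : ℝ) ≤ K := hj1.trans (by nlinarith [hz.2])
      exact_mod_cast this
    have hdiv : (s * (K + 1) + j) / (K + 1) = s := by
      rw [Nat.mul_comm, Nat.mul_add_div (Nat.succ_pos K), Nat.div_eq_of_lt (by omega), Nat.add_zero]
    have hmod : (s * (K + 1) + j) % (K + 1) = j := by
      rw [Nat.mul_comm, Nat.mul_add_mod, Nat.mod_eq_of_lt (by omega)]
    have hlt : s * (K + 1) + j < m * (K + 1) + 1 := by
      have : (s + 1) * (K + 1) ≤ m * (K + 1) := Nat.mul_le_mul_right _ hs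
      nlinarith
    have hmem := (h2a (s * (K + 1) + j) hlt)
    simp only [hdiv, hmod] at hmem
    have hyext := mem_ext ((hU _).1 _ hmem.1.1) hmem.2
    push_cast at hyext
    have hx : (r s : ℝ) + j / K - z ∈ J s ∩ ext (h1 (p + s)) := by
      apply hKle s hs
      rw [Metric.mem_closedBall, Real.dist_eq]
      have : (r s : ℝ) + j / K - z - r s = -((z * K - j) / K) := by field_simp; ring
      rw [this, abs_neg, abs_of_nonneg (div_nonneg (by linarith) hK0.le)]
      exact div_le_div_of_nonneg_right (by linarith) hK0.le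
    refine ⟨(r s : ℝ) + j / K - z, hx.1, ⟨p + s, ⟨by omega, by omega⟩, ?_⟩,
      ⟨p + m + (s * (K + 1) + j), ⟨by omega, by omega⟩, ?_⟩⟩
    · have h5 : p + s < p + m := by omega
      simp only [h5, if_true]
      exact hx.2
    · have h5 : ¬ (p + m + (s * (K + 1) + j) < p + m) := by omega
      simp only [h5, if_false, sub_add_cancel]
      exact hyext

theorem exists_selection (hq : ∀ q : ℚ, (q : ℝ) ∈ X) {U : ℕ → Set (Set X)}
    (hU : ∀ n, U n ∈ Omega X) {J : ℕ → Set ℝ} (hJo : ∀ s, IsOpen (J s))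
    (hJn : ∀ s, (J s).Nonempty) :
    ∃ (H : ℕ → Set X) (a : ℕ → ℕ), (∀ n, H n ∈ U n) ∧ Function.Injective H ∧ StrictMono a ∧
      ∀ m, ∀ s < m, ∀ z ∈ Icc (0 : ℝ) 1, ∃ x ∈ J s,
        (∃ n ∈ Ico (a m) (a (m + 1)), x ∈ ext (H n)) ∧
        ∃ n ∈ Ico (a m) (a (m + 1)), x + z ∈ ext (H n) := by
  classical
  obtain ⟨f, hf0, hf1, hf2⟩ := step_seq (S := ℕ × (ℕ → Set X))
    (fun st => (∀ n < st.1, st.2 n ∈ U n) ∧ InjOn st.2 (Iio st.1))
    (fun m st st' => st.1 < st'.1 ∧ (∀ n < st.1, st'.2 n = st.2 n) ∧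
      ∀ s < m, ∀ z ∈ Icc (0 : ℝ) 1, ∃ x ∈ J s,
        (∃ n ∈ Ico st.1 st'.1, x ∈ ext (st'.2 n)) ∧ ∃ n ∈ Ico st.1 st'.1, x + z ∈ ext (st'.2 n))
    (0, fun _ => ∅) ⟨fun n hn => absurd hn (Nat.not_lt_zero n), by
      intro a ha; exact absurd ha (Nat.not_lt_zero a)⟩ (by
    rintro m ⟨p, h⟩ ⟨hi1, hi2⟩
    obtain ⟨q, hpq, h', h1, h2, h3⟩ := pick_group hq hU hJo hJn m p
      (T := h '' Iio p) ((finite_Iio p).image _)
    refine ⟨(q, fun n => if n < p then h n else h' n), ⟨fun n hn => ?_, ?_⟩, hpq, fun n hn => ?_, ?_⟩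
    · by_cases hlt : n < p
      · simp only [hlt, if_true]; exact hi1 n hlt
      · simp only [hlt, if_false]; exact (h1 n ⟨not_lt.1 hlt, hn⟩).1
    · intro a ha b hb hab
      by_cases h4 : a < p <;> by_cases h5 : b < p
      · simp only [h4, h5, if_true] at hab
        exact hi2 h4 h5 hab
      · simp only [h4, h5, if_true, if_false] at hab
        exfalso
        exact (h1 b ⟨not_lt.1 h5, hb⟩).2 ⟨a, h4, hab⟩
      · simp only [h4, h5, if_true, if_false] at hab
        exfalso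
        exact (h1 a ⟨not_lt.1 h4, ha⟩).2 ⟨b, h5, hab.symm⟩
      · simp only [h4, h5, if_false] at hab
        exact h2 ⟨not_lt.1 h4, ha⟩ ⟨not_lt.1 h5, hb⟩ hab
    · have hn' : n < p := hn
      simp only [hn', if_true]
    · intro s hs z hz
      obtain ⟨x, hx, ⟨n, hn, hxn⟩, n', hn', hxn'⟩ := h3 s hs z hz
      refine ⟨x, hx, ⟨n, hn, ?_⟩, n', hn', ?_⟩
      · simp only [not_lt.2 hn.1, if_false]; exact hxn
      · simp only [not_lt.2 hn'.1, if_false]; exact hxn')
  have ha : StrictMono fun m => (f m).1 := strictMono_nat_of_lt_succ fun m => (hf2 m).1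
  have hstab : ∀ k l, k ≤ l → ∀ n < (f k).1, (f l).2 n = (f k).2 n := by
    intro k l hkl
    induction l, hkl using Nat.le_induction with
    | base => intro n _; rfl
    | succ l hkl ih =>
      intro n hn
      rw [(hf2 l).2.1 n (lt_of_lt_of_le hn (ha.monotone hkl)), ih n hn]
  have hlt : ∀ n, n < (f (n + 1)).1 := fun n => lt_of_lt_of_le (Nat.lt_succ_self n) (ha.id_le _)
  have hH : ∀ k n, n < (f k).1 → (f (n + 1)).2 n = (f k).2 n := by
    intro k n hn
    rcases le_total k (n + 1) with h | h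
    · exact hstab _ _ h n hn
    · exact (hstab _ _ h n (hlt n)).symm
  refine ⟨fun n => (f (n + 1)).2 n, fun m => (f m).1, fun n => (hf1 (n + 1)).1 n (hlt n), ?_, ha, ?_⟩
  · intro i j hij
    simp only at hij
    have hi : i < (f (max i j + 1)).1 := lt_of_lt_of_le (hlt i)
      (ha.monotone (Nat.succ_le_succ (le_max_left _ _)))
    have hj : j < (f (max i j + 1)).1 := lt_of_lt_of_le (hlt j)
      (ha.monotone (Nat.succ_le_succ (le_max_right _ _)))
    rw [hH _ i hi, hH _ j hj] at hij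
    exact (hf1 _).2 hi hj hij
  · intro m s hs z hz
    obtain ⟨x, hx, ⟨n, hn, hxn⟩, n', hn', hxn'⟩ := (hf2 m).2.2 s hs z hz
    refine ⟨x, hx, ⟨n, hn, ?_⟩, n', hn', ?_⟩
    · show x ∈ ext ((f (n + 1)).2 n)
      rw [hH (m + 1) n hn.2]; exact hxn
    · show x + z ∈ ext ((f (n' + 1)).2 n')
      rw [hH (m + 1) n' hn'.2]; exact hxn'

end Selection

/-! ## The two halves -/

open MeasureTheory in
/-- If `[0,1] ⊆ X - X` then `X` does not satisfy `S₁(Ω, Ω)`. -/
theorem not_S1_of_diff {X : Set ℝ} (hX : ∀ z ∈ Icc (0 : ℝ) 1, ∃ x ∈ X, x + z ∈ X) :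
    ¬ S1 (Omega X) (Omega X) := by
  classical
  intro hS
  obtain ⟨ε, hε0, hε⟩ := ENNReal.exists_pos_sum_of_countable (ε := 1) one_ne_zero ℕ
  let Dm : Set ℝ → Set ℝ := fun W => {t | ∃ a ∈ W, ∃ b ∈ W, b - a = t}
  let U : ℕ → Set (Set X) := fun n => {h | IsOpen h ∧ h ≠ univ ∧
    ∃ W : Set ℝ, (∀ y ∈ h, (y : ℝ) ∈ W) ∧ volume (Dm W) ≤ ε n}
  have hvol : ∀ n (W : Set ℝ), volume (Dm W) ≤ ε n → ∃ x : X, (x : ℝ) ∉ W := by
    intro n W hW
    by_contra hcon
    push Not at hcon
    have hsub : Icc (0 : ℝ) 1 ⊆ Dm W := by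
      intro z hz
      obtain ⟨x, hx, hxz⟩ := hX z hz
      exact ⟨x, hcon ⟨x, hx⟩, x + z, hcon ⟨x + z, hxz⟩, by ring⟩
    have h1 : (1 : ENNReal) ≤ ε n := by
      have h2 := (measure_mono hsub).trans hW
      rw [Real.volume_Icc] at h2
      simpa using h2
    have h3 : (ε n : ENNReal) ≤ ∑' i, (ε i : ENNReal) := ENNReal.le_tsum n
    exact absurd (h1.trans h3) (not_le.2 hε)
  have hU : ∀ n, U n ∈ Omega X := by
    intro n
    refine ⟨fun h hh => hh.1, fun hh => hh.2.1 rfl, fun F hF => ?_⟩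
    set N : ℕ := hF.toFinset.card with hN
    set δ : ℝ := (ε n : ℝ) / (4 * (N * N + 1)) with hδ
    have hε' : (0 : ℝ) < ε n := NNReal.coe_pos.2 (hε0 n)
    have hδ0 : 0 < δ := by positivity
    set W : Set ℝ := ⋃ x ∈ hF.toFinset, Metric.ball (x : ℝ) δ with hW
    have hDW : volume (Dm W) ≤ ε n := by
      have hsub : Dm W ⊆ ⋃ x ∈ hF.toFinset, ⋃ y ∈ hF.toFinset,
          Metric.ball ((y : ℝ) - x) (2 * δ) := by
        rintro t ⟨a, ha, b, hb, rfl⟩
        rw [hW] at ha hb
        simp only [mem_iUnion, exists_prop] at ha hb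
        obtain ⟨x, hx, hxa⟩ := ha
        obtain ⟨y, hy, hyb⟩ := hb
        simp only [mem_iUnion, exists_prop]
        refine ⟨x, hx, y, hy, ?_⟩
        rw [Metric.mem_ball, Real.dist_eq] at hxa hyb ⊢
        rw [abs_lt] at hxa hyb ⊢
        constructor <;> linarith [hxa.1, hxa.2, hyb.1, hyb.2]
      calc volume (Dm W) ≤ volume (⋃ x ∈ hF.toFinset, ⋃ y ∈ hF.toFinset,
            Metric.ball ((y : ℝ) - x) (2 * δ)) := measure_mono hsub
        _ ≤ ∑ x ∈ hF.toFinset, volume (⋃ y ∈ hF.toFinset, Metric.ball ((y : ℝ) - x) (2 * δ)) :=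
            measure_biUnion_finset_le _ _
        _ ≤ ∑ x ∈ hF.toFinset, ∑ y ∈ hF.toFinset, volume (Metric.ball ((y : ℝ) - x) (2 * δ)) :=
            Finset.sum_le_sum fun x _ => measure_biUnion_finset_le _ _
        _ = ∑ x ∈ hF.toFinset, ∑ y ∈ hF.toFinset, ENNReal.ofReal (2 * (2 * δ)) := by
            simp only [Real.volume_ball]
        _ = ENNReal.ofReal (N * (N * (2 * (2 * δ)))) := by
            have h7 : ENNReal.ofReal (N * (N * (2 * (2 * δ)))) =
                N * (N * ENNReal.ofReal (2 * (2 * δ))) := by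
              rw [ENNReal.ofReal_mul (Nat.cast_nonneg N), ENNReal.ofReal_mul (Nat.cast_nonneg N),
                ENNReal.ofReal_natCast]
            rw [h7]
            simp only [Finset.sum_const, ← hN, nsmul_eq_mul]
        _ ≤ ENNReal.ofReal (ε n) := by
            apply ENNReal.ofReal_le_ofReal
            rw [hδ]
            have h5 : (0 : ℝ) < N * N + 1 := by positivity
            have : (N : ℝ) * (N * (2 * (2 * ((ε n : ℝ) / (4 * (N * N + 1)))))) =
                (ε n : ℝ) * ((N * N) / (N * N + 1)) := by field_simp; ring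
            rw [this]
            have h6 : ((N : ℝ) * N) / (N * N + 1) ≤ 1 := by
              rw [div_le_one h5]; linarith
            nlinarith
        _ = ε n := ENNReal.ofReal_coe_nnreal
    refine ⟨Subtype.val ⁻¹' W, ⟨?_, ?_, W, fun y hy => hy, hDW⟩, ?_⟩
    · exact (isOpen_biUnion fun x _ => Metric.isOpen_ball).preimage continuous_subtype_val
    · intro h
      obtain ⟨x, hx⟩ := hvol n W hDW
      exact hx (show x ∈ Subtype.val ⁻¹' W by rw [h]; trivial)
    · intro x hx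
      exact mem_biUnion (hF.mem_toFinset.2 hx) (Metric.mem_ball_self hδ0)
  obtain ⟨u, hu, hr⟩ := hS U hU
  choose W hW1 hW2 using fun n => (hu n).2.2
  have hsub : Icc (0 : ℝ) 1 ⊆ ⋃ n, Dm (W n) := by
    intro z hz
    obtain ⟨x, hx, hxz⟩ := hX z hz
    obtain ⟨_, ⟨n, rfl⟩, hn⟩ := hr.2.2 {⟨x, hx⟩, ⟨x + z, hxz⟩} (by simp)
    refine mem_iUnion.2 ⟨n, x, hW1 n ⟨x, hx⟩ (hn (by simp)), x + z,
      hW1 n ⟨x + z, hxz⟩ (hn (by simp)), by ring⟩
  have h1 : (1 : ENNReal) ≤ ∑' n, (ε n : ENNReal) := by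
    calc (1 : ENNReal) = volume (Icc (0 : ℝ) 1) := by rw [Real.volume_Icc]; simp
      _ ≤ volume (⋃ n, Dm (W n)) := measure_mono hsub
      _ ≤ ∑' n, volume (Dm (W n)) := measure_iUnion_le _
      _ ≤ ∑' n, (ε n : ENNReal) := ENNReal.tsum_le_tsum hW2
  exact absurd h1 (not_le.2 hε)

/-- Under CH some set of reals satisfies `S₁(Ω, 𝒪^{ω-gp})` but not `S₁(Ω, Ω)`. -/
theorem ch_part (hCH : (𝔠 : Cardinal.{0}) = ℵ₁) :
    ∃ X : Set ℝ, S1 (Omega X) (OmegaGroupable X) ∧ ¬ S1 (Omega X) (Omega X) := by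
  classical
  obtain ⟨X, hq, hdiff, hgen⟩ := exists_generic hCH
  refine ⟨X, S1_OmegaGroupable_of fun U hU => ?_, not_S1_of_diff hdiff⟩
  obtain ⟨b, hbc, hbe, hb⟩ := TopologicalSpace.exists_countable_basis ℝ
  have hbne : b.Nonempty := by
    obtain ⟨u, hu, -⟩ := hb.exists_subset_of_mem_open (mem_univ (0 : ℝ)) isOpen_univ
    exact ⟨u, hu⟩
  obtain ⟨J, hJ⟩ := hbc.exists_eq_range hbne
  have hJo : ∀ k, IsOpen (J k) := fun k => hb.isOpen (hJ ▸ mem_range_self k)
  have hJn : ∀ k, (J k).Nonempty := by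
    intro k
    rw [nonempty_iff_ne_empty]
    intro h
    exact hbe (h ▸ (hJ ▸ mem_range_self k))
  obtain ⟨H, a, hH, hinj, ha, hHa⟩ := exists_selection hq hU hJo hJn
  let V : ℕ → Set ℝ := fun m => ⋃ n ∈ Ico (a m) (a (m + 1)), ext (H n)
  have hV : Thick V := by
    refine ⟨fun m => isOpen_biUnion fun n _ => isOpen_ext _, fun I hIo ⟨x, hx⟩ => ?_⟩
    obtain ⟨u, hu, hxu, huI⟩ := hb.exists_subset_of_mem_open hx hIo
    rw [hJ] at hu
    obtain ⟨s, rfl⟩ := hu
    refine ⟨s + 1, fun m hm z hz => ?_⟩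
    obtain ⟨x, hx, ⟨n, hn, hxn⟩, n', hn', hxn'⟩ := hHa m s hm z hz
    exact ⟨x, huI hx, mem_biUnion hn hxn, mem_biUnion hn' hxn'⟩
  obtain ⟨E, hE, hEV⟩ := hgen V hV
  refine ⟨H, a, Subtype.val ⁻¹' E, hH, hinj, ha,
    hE.preimage_of_injOn Subtype.val_injective.injOn, fun G hG hGE N => ?_⟩
  obtain ⟨m, hm, hGm⟩ := hEV (Subtype.val '' G) (by rintro _ ⟨x, -, rfl⟩; exact x.2)
    (hG.image _) (by
      rw [disjoint_left]
      rintro _ ⟨x, hx, rfl⟩ hxE
      exact disjoint_left.1 hGE hx hxE) N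
  refine ⟨m, hm, fun x hx => ?_⟩
  have hxV := hGm ⟨x, hx, rfl⟩
  simp only [V, mem_iUnion, exists_prop] at hxV
  obtain ⟨n, hn, hxn⟩ := hxV
  exact ⟨n, hn, mem_of_mem_ext hxn⟩

/-- `S₁(Ω, 𝒪^{ω-gp})` implies strong measure zero. -/
theorem strongMeasureZero_of_S1 {X : Set ℝ} (h : S1 (Omega X) (OmegaGroupable X)) :
    StrongMeasureZero X := by
  classical
  intro ε hε
  let Cov : ℕ → Set X → ℕ → (ℕ → ℝ) → Prop := fun n h k c =>
    ∀ y ∈ h, ∃ i < k, (y : ℝ) ∈ Ioo (c i) (c i + ε (Nat.pair n i))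
  by_cases hex : ∃ n k c, Cov n univ k c
  · obtain ⟨n, k, c, hc⟩ := hex
    refine ⟨fun j => if (Nat.unpair j).1 = n then c (Nat.unpair j).2 else 0, fun x hx => ?_⟩
    obtain ⟨i, -, hi⟩ := hc ⟨x, hx⟩ trivial
    refine mem_iUnion.2 ⟨Nat.pair n i, ?_⟩
    simpa [Nat.unpair_pair] using hi
  · push Not at hex
    obtain ⟨u, hu, hr⟩ := h (fun n => {h | IsOpen h ∧ ∃ k c, Cov n h k c}) (fun n => by
      refine ⟨fun h hh => hh.1, fun hh => ?_, fun F hF => ?_⟩
      · obtain ⟨-, k, c, hc⟩ := hh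
        exact hex n k c hc
      · obtain ⟨k, f, hf⟩ : ∃ k, ∃ f : ℕ → X, ∀ x ∈ F, ∃ i < k, f i = x := by
          rcases F.eq_empty_or_nonempty with rfl | ⟨x0, -⟩
          · by_cases hX : Nonempty X
            · exact ⟨0, fun _ => hX.some, by simp⟩
            · exfalso
              exact hex n 0 (fun _ => 0) (fun y _ => (hX ⟨y⟩).elim)
          · let e := hF.toFinset.equivFin
            refine ⟨hF.toFinset.card, fun i => if hi : i < hF.toFinset.card then
              (e.symm ⟨i, hi⟩ : X) else x0, fun x hx => ?_⟩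
            refine ⟨e ⟨x, hF.mem_toFinset.2 hx⟩, Fin.is_lt _, ?_⟩
            simp
        refine ⟨⋃ i ∈ Iio k, {y : X | (y : ℝ) ∈ Ioo ((f i : ℝ) - ε (Nat.pair n i) / 2)
          ((f i : ℝ) - ε (Nat.pair n i) / 2 + ε (Nat.pair n i))}, ⟨?_, k,
          fun i => (f i : ℝ) - ε (Nat.pair n i) / 2, ?_⟩, ?_⟩
        · exact isOpen_biUnion fun i _ => isOpen_Ioo.preimage continuous_subtype_val
        · intro y hy
          simp only [mem_iUnion, exists_prop] at hy
          obtain ⟨i, hi, hy⟩ := hy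
          exact ⟨i, hi, hy⟩
        · intro x hx
          obtain ⟨i, hi, rfl⟩ := hf x hx
          refine mem_biUnion (show i ∈ Iio k from hi) ?_
          have := hε (Nat.pair n i)
          constructor <;> linarith)
    choose k c hc using fun n => (hu n).2
    refine ⟨fun j => c (Nat.unpair j).1 (Nat.unpair j).2, fun x hx => ?_⟩
    have hx' : (⟨x, hx⟩ : X) ∈ ⋃₀ range u := by rw [hr.1.2.2]; trivial
    obtain ⟨_, ⟨n, rfl⟩, hxn⟩ := hx'
    obtain ⟨i, -, hi⟩ := hc n _ hxn
    refine mem_iUnion.2 ⟨Nat.pair n i, ?_⟩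
    simpa [Nat.unpair_pair] using hi

/-- Main result.  (1) CH implies that `S₁(Ω, Ω)` and `S₁(Ω, 𝒪^{ω-gp})` are different classes of
sets of reals.  (2) Borel's conjecture implies that they coincide (both then consist of the
countable sets). -/
theorem result :
    ((𝔠 : Cardinal.{0}) = ℵ₁ →
      ∃ X : Set ℝ, S1 (Omega X) (OmegaGroupable X) ∧ ¬ S1 (Omega X) (Omega X)) ∧
    (BorelConjecture → ∀ X : Set ℝ, S1 (Omega X) (Omega X) ↔ S1 (Omega X) (OmegaGroupable X)) := by
  refine ⟨ch_part, fun hBC X => ⟨S1_Omega_to_OmegaGroupable, fun h => ?_⟩⟩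
  have : Countable X := (hBC X (strongMeasureZero_of_S1 h)).to_subtype
  exact S1_Omega_of_countable

end Pool.Agent.Results.MP_ef066b_gt.EqualityVersusCH
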